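import Pool.Agent.Q26.MTS.Sys

/-!
# Uniqueness and compatibility of motivic t-structures
-/

set_option autoImplicit false
set_option linter.unusedSectionVars false
set_option backward.isDefEq.respectTransparency false
set_option backward.defeqAttrib.useBackward true

open CategoryTheory Limits MonoidalCategory Pretriangulated Triangulated
open Pool.Agent.Y116.MT (TensorTriangulated Realisation IsMotivic TensorCompat TExact hz1 hz2 hz3)
open Pool.Agent.Q57.MT (Conservative)

namespace Pool.Agent.Q26.MTS

universe a s u v w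

section

variable {Λ : Type a} {E : Λ → Type w} [∀ l, Field (E l)] [∀ l, CharZero (E l)]
  {S T : Motives.{a, u, v, w} Λ E}

/-- A motivic t-structure is described by the degrees of one realisation. -/
lemma le_iff {t : TStructure S.C} (ht : IsMotivic t S.R) (l : Λ) (n : ℤ) (X : S.C) :
    t.le n X ↔ ∀ i : ℤ, n < i → IsZero ((S.R l).H.obj (X⟦i⟧)) := by
  have htc : TensorCompat t := ⟨ht.tensor_le, ht.tensor_ge⟩
  have he : TExact t (S.R l) := ⟨ht.exact_le l, ht.exact_ge l⟩
  have hu := Pool.Agent.Y116.MT.unit_hrt htc ht.nondeg_le ht.nondeg_ge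
  have hc : Conservative (S.R l) := fun X hX => Pool.Agent.Y116.MT.conservative htc he hu
    S.unit_idem ht.nondeg_le ht.nondeg_ge hX
  constructor
  · intro h i hi
    exact he.isLE ⟨h⟩ i hi
  · intro h
    obtain ⟨A, B, hA, hB, f, g, d, hT⟩ := t.exists_triangle X n (n + 1) rfl
    have hB0 : IsZero B := by
      apply hc
      intro j
      by_cases hj : j < n + 1
      · exact he.isGE ⟨hB⟩ j hj
      · exact hz3 (S.R l).H hT j (h j (by omega)) (he.isLE ⟨hA⟩ (j + 1) (by omega))
    have hf : IsIso f := (Triangle.isZero₃_iff_isIso₁ _ hT).1 hB0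
    exact (t.le n).prop_of_iso (asIso f) hA

/-- A motivic t-structure is described by the degrees of one realisation. -/
lemma ge_iff {t : TStructure S.C} (ht : IsMotivic t S.R) (l : Λ) (n : ℤ) (X : S.C) :
    t.ge n X ↔ ∀ i : ℤ, i < n → IsZero ((S.R l).H.obj (X⟦i⟧)) := by
  have htc : TensorCompat t := ⟨ht.tensor_le, ht.tensor_ge⟩
  have he : TExact t (S.R l) := ⟨ht.exact_le l, ht.exact_ge l⟩
  have hu := Pool.Agent.Y116.MT.unit_hrt htc ht.nondeg_le ht.nondeg_ge
  have hc : Conservative (S.R l) := fun X hX => Pool.Agent.Y116.MT.conservative htc he hu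
    S.unit_idem ht.nondeg_le ht.nondeg_ge hX
  constructor
  · intro h i hi
    exact he.isGE ⟨h⟩ i hi
  · intro h
    obtain ⟨A, B, hA, hB, f, g, d, hT⟩ := t.exists_triangle X (n - 1) n (by omega)
    have hA0 : IsZero A := by
      apply hc
      intro j
      by_cases hj : n - 1 < j
      · exact he.isLE ⟨hA⟩ j hj
      · exact hz1 (S.R l).H hT j (h j (by omega)) (he.isGE ⟨hB⟩ (j - 1) (by omega))
    have hg : IsIso g := (Triangle.isZero₁_iff_isIso₂ _ hT).1 hA0
    exact (t.ge n).prop_of_iso (asIso g).symm hB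

/-- Comparison functors are t-exact and detect the t-structures. -/
theorem Comparison.compat [Nonempty Λ] (c : Comparison S T) {t : TStructure S.C}
    {t' : TStructure T.C} (ht : IsMotivic t S.R) (ht' : IsMotivic t' T.R) (n : ℤ) (X : S.C) :
    (t'.le n (c.F.obj X) ↔ t.le n X) ∧ (t'.ge n (c.F.obj X) ↔ t.ge n X) := by
  obtain ⟨l⟩ := ‹Nonempty Λ›
  rw [le_iff ht l, le_iff ht' l, ge_iff ht l, ge_iff ht' l]
  simp only [c.zero_iff, and_self]

end

/-- The complex numbers have infinite transcendence degree. -/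
theorem complex_infinite : InfiniteTranscendenceDegree 0 ℂ := by
  intro n
  let : Algebra (ZMod 0) ℂ := ZMod.algebra ℂ 0
  have hinj : Function.Injective (algebraMap (ZMod 0) ℂ) := ZMod.castHom_injective (n := 0) ℂ
  have : FaithfulSMul (ZMod 0) ℂ := (faithfulSMul_iff_algebraMap_injective _ _).2 hinj
  obtain ⟨s, hs⟩ := exists_isTranscendenceBasis (ZMod 0) ℂ
  have h1 : Cardinal.mk ℂ = Cardinal.mk s := by
    have := IsAlgClosed.cardinal_eq_cardinal_transcendence_basis_of_aleph0_lt _ hs
      (Cardinal.mk_le_aleph0 (α := ℤ)) (by rw [Cardinal.mk_complex]; exact Cardinal.aleph0_lt_continuum)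
    simpa using this
  have h2 : Infinite s := by
    rw [Cardinal.infinite_iff, ← h1, Cardinal.mk_complex]
    exact Cardinal.aleph0_le_continuum
  have e : Fin n ↪ s := (Fin.valEmbedding).trans (Infinite.natEmbedding s)
  exact ⟨_, hs.1.comp e e.injective⟩

end Pool.Agent.Q26.MTS
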