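import Pool.Agent.Y116.MT.Defs

/-!
# Systems of categories of motives over the fields of a given characteristic

The definitions for `MP_6d0ce9_ag.OneField`.
-/

set_option autoImplicit false

open CategoryTheory Limits MonoidalCategory Pretriangulated Triangulated
open Pool.Agent.Y116.MT (TensorTriangulated Realisation IsMotivic)

namespace Pool.Agent.Q26.MTS

universe a s u v w

/-- The data attached to one field: a rigid `ℚ`-linear tensor triangulated category `C` (the
constructible motives), in which idempotents split and the unit object has no nontrivial
idempotent endomorphisms, and realisations `R l` with coefficient fields `E l`. -/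
structure Motives (Λ : Type a) (E : Λ → Type w) [∀ l, Field (E l)] where
  /-- the category -/
  C : Type u
  [category : Category.{v} C]
  [preadditive : Preadditive C]
  [zero : HasZeroObject C]
  [shift : HasShift C ℤ]
  [additive : ∀ n : ℤ, (shiftFunctor C n).Additive]
  [pretriangulated : Pretriangulated C]
  [triangulated : IsTriangulated C]
  [monoidal : MonoidalCategory C]
  [symmetric : SymmetricCategory C]
  [tensor : TensorTriangulated C]
  [monoidalPreadditive : MonoidalPreadditive C]
  [rigid : RightRigidCategory C]
  [linear : Linear ℚ C]
  [monoidalLinear : MonoidalLinear ℚ C]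
  [idempotentComplete : IsIdempotentComplete C]
  unit_idem : ∀ e : 𝟙_ C ⟶ 𝟙_ C, e ≫ e = e → e = 0 ∨ e = 𝟙 _
  /-- the realisations -/
  R : ∀ l, Realisation C (E l)

attribute [instance] Motives.category Motives.preadditive Motives.zero Motives.shift
  Motives.additive Motives.pretriangulated Motives.triangulated Motives.monoidal
  Motives.symmetric Motives.tensor Motives.monoidalPreadditive Motives.rigid Motives.linear
  Motives.monoidalLinear Motives.idempotentComplete

section

variable {Λ : Type a} {E : Λ → Type w} [∀ l, Field (E l)]

/-- The statement of the problem for one field: there is a motivic t-structure. -/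
def Q1 (S : Motives.{a, u, v, w} Λ E) : Prop :=
  ∃ t : TStructure S.C, IsMotivic t S.R

/-- A comparison functor: a faithful triangulated functor which detects in which degrees the
realisations are nonzero. Examples are the base change for an arbitrary extension of fields and
the direct image for a finite extension of fields. -/
structure Comparison (S T : Motives.{a, u, v, w} Λ E) where
  /-- the functor -/
  F : S.C ⥤ T.C
  [commShift : F.CommShift ℤ]
  [exact : F.IsTriangulated]
  [faithful : F.Faithful]
  zero_iff (l : Λ) (X : S.C) (i : ℤ) :
    IsZero ((T.R l).H.obj ((F.obj X)⟦i⟧)) ↔ IsZero ((S.R l).H.obj (X⟦i⟧))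

attribute [instance] Comparison.commShift Comparison.exact Comparison.faithful

/-- The transfer for a finite extension of fields with base change `f`: a comparison functor `G`
in the other direction (the direct image) such that every object `X` is a direct summand of
`G (F X)` and every object `Y` is a direct summand of `F (G Y)`. -/
structure Transfer {S T : Motives.{a, u, v, w} Λ E} (f : Comparison S T) where
  /-- the direct image -/
  G : Comparison T S
  left (X : S.C) : Nonempty (Retract X (G.F.obj (f.F.obj X)))
  right (Y : T.C) : Nonempty (Retract Y (f.F.obj (G.F.obj Y)))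

end

/-- A system of categories of motives over all fields of characteristic `p` (in a universe):
base change functors `bc φ` for all homomorphisms of fields, transfers for the finite ones, every
object is defined over a finitely generated subfield, and distinguished triangles
`A ⟶ X_K ⟶ B ⟶ A⟦1⟧` over an extension `K` of `k`, where `X` is an object over `k`, can be
specialised to triangles over finite extensions `L` of `k` without changing the degrees in which
the realisations of `A` and `B` are nonzero. (Compatibility of the functors `bc φ` with the
composition of homomorphisms is not needed.) -/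
structure System (p : ℕ) (Λ : Type a) (E : Λ → Type w) [∀ l, Field (E l)] where
  /-- the category of motives over `k` -/
  M (k : Type s) [Field k] [CharP k p] : Motives.{a, u, v, w} Λ E
  /-- base change -/
  bc {k K : Type s} [Field k] [CharP k p] [Field K] [CharP K p] (φ : k →+* K) :
    Comparison (M k) (M K)
  transfer {k K : Type s} [Field k] [CharP k p] [Field K] [CharP K p] (φ : k →+* K) :
    φ.Finite → Nonempty (Transfer (bc φ))
  defined {K : Type s} [Field K] [CharP K p] (X : (M K).C) :
    ∃ (k : Type s) (_ : Field k) (_ : CharP k p) (φ : k →+* K) (X₀ : (M k).C),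
      Field.FG k ∧ Nonempty ((bc φ).F.obj X₀ ≅ X)
  specialise {k K : Type s} [Field k] [CharP k p] [Field K] [CharP K p] (φ : k →+* K)
    (X : (M k).C) (A B : (M K).C) (f : A ⟶ (bc φ).F.obj X) (g : (bc φ).F.obj X ⟶ B)
    (h : B ⟶ A⟦(1 : ℤ)⟧) : Triangle.mk f g h ∈ distTriang (M K).C →
    ∃ (L : Type s) (_ : Field L) (_ : CharP L p) (ψ : k →+* L) (A' B' : (M L).C)
      (f' : A' ⟶ (bc ψ).F.obj X) (g' : (bc ψ).F.obj X ⟶ B') (h' : B' ⟶ A'⟦(1 : ℤ)⟧),
      ψ.Finite ∧ Triangle.mk f' g' h' ∈ distTriang (M L).C ∧
      ∀ (l : Λ) (i : ℤ),
        (IsZero (((M K).R l).H.obj (A⟦i⟧)) ↔ IsZero (((M L).R l).H.obj (A'⟦i⟧))) ∧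
        (IsZero (((M K).R l).H.obj (B⟦i⟧)) ↔ IsZero (((M L).R l).H.obj (B'⟦i⟧)))

/-- The field `K` has infinite transcendence degree over its prime field (`ZMod 0 = ℤ`;
independence over `ℤ` and over `ℚ` are the same). -/
def InfiniteTranscendenceDegree (p : ℕ) (K : Type s) [Field K] [CharP K p] : Prop :=
  ∀ n : ℕ, ∃ x : Fin n → K, @AlgebraicIndependent (Fin n) (ZMod p) K x _ _ (ZMod.algebra K p)

end Pool.Agent.Q26.MTS
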