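import Pool.Agent.Q26.MTS.Ret

/-!
# Finitely generated fields embed in finite extensions of fields of infinite transcendence degree
-/

set_option autoImplicit false

namespace Pool.Agent.Q26.MTS

universe s

section

variable {p : ℕ}

/-- A homomorphism from a finitely generated field into an algebraic extension `Ω` of `K` lands in
a finite subextension. -/
theorem exists_finite_sub {k K Ω : Type s} [Field k] [CharP k p] [Field K] [CharP K p]
    [Field Ω] [Algebra K Ω] [Algebra.IsAlgebraic K Ω] (hk : Field.FG k) (φ : k →+* Ω) :
    ∃ (L : Type s) (_ : Field L) (_ : CharP L p) (i : K →+* L) (ψ : k →+* L) (j : L →+* Ω),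
      i.Finite ∧ j.comp ψ = φ ∧ j.comp i = algebraMap K Ω := by
  obtain ⟨S, hS⟩ := hk
  let L := IntermediateField.adjoin K (φ '' (S : Set k))
  have hfd : FiniteDimensional K L := by
    have : Finite (φ '' (S : Set k)) := (S.finite_toSet.image φ).to_subtype
    exact IntermediateField.finiteDimensional_adjoin
      fun x _ => Algebra.IsIntegral.isIntegral x
  have hc : CharP L p := charP_of_injective_algebraMap (algebraMap K L).injective p
  have hsub : ∀ x, φ x ∈ L := by
    intro x
    have h1 : Subfield.closure (S : Set k) ≤ L.toSubfield.comap φ := by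
      rw [Subfield.closure_le]
      intro y hy
      exact IntermediateField.subset_adjoin K _ ⟨y, hy, rfl⟩
    exact h1 (hS ▸ Subfield.mem_top x)
  refine ⟨L, inferInstance, hc, algebraMap K L, φ.codRestrict L hsub, L.val.toRingHom, ?_, ?_, ?_⟩
  · exact (RingHom.finite_algebraMap).2 inferInstance
  · ext x; rfl
  · ext x; rfl

/-- Every finitely generated field embeds into a finite extension of a field of infinite
transcendence degree. -/
theorem exists_embedding {k K : Type s} [Field k] [CharP k p] [Field K] [CharP K p]
    (hk : Field.FG k) (hK : InfiniteTranscendenceDegree p K) :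
    ∃ (L : Type s) (_ : Field L) (_ : CharP L p) (i : K →+* L) (_ : k →+* L), i.Finite := by
  classical
  obtain ⟨S, hS⟩ := id hk
  let : Algebra (ZMod p) k := ZMod.algebra k p
  let : Algebra (ZMod p) K := ZMod.algebra K p
  let Ω := AlgebraicClosure K
  have hinj : Function.Injective (algebraMap (ZMod p) k) := by
    have := ZMod.castHom_injective (n := p) k
    exact this
  have : FaithfulSMul (ZMod p) k := (faithfulSMul_iff_algebraMap_injective _ _).2 hinj
  have hnt : Nontrivial (ZMod p) := (algebraMap (ZMod p) k).domain_nontrivial
  -- `k` is algebraic over the subring generated by `S`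
  have halg : Algebra.IsAlgebraic (Algebra.adjoin (ZMod p) (S : Set k)) k := by
    constructor
    intro x
    have hx : x ∈ Subfield.closure (S : Set k) := hS ▸ Subfield.mem_top x
    induction hx using Subfield.closure_induction with
    | mem y hy =>
      exact isAlgebraic_algebraMap (A := k)
        (⟨y, Algebra.subset_adjoin hy⟩ : Algebra.adjoin (ZMod p) (S : Set k))
    | one => exact isAlgebraic_one
    | add y z _ _ h1 h2 => exact h1.add h2
    | neg y _ h1 => exact h1.neg
    | inv y _ h1 => exact h1.inv
    | mul y z _ _ h1 h2 => exact h1.mul h2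
  obtain ⟨t, htS, hb⟩ := exists_isTranscendenceBasis_subset (R := ZMod p) (S : Set k)
  have hfin : Finite t := (S.finite_toSet.subset htS).to_subtype
  let n := Nat.card t
  obtain ⟨x, hx⟩ := hK n
  let y : t → Ω := fun a => algebraMap K Ω (x (Finite.equivFin t a))
  have hy : AlgebraicIndependent (ZMod p) y := by
    have h1 : AlgebraicIndependent (ZMod p) (x ∘ Finite.equivFin t) :=
      hx.comp _ (Finite.equivFin t).injective
    exact h1.map' (f := IsScalarTower.toAlgHom (ZMod p) K Ω) (algebraMap K Ω).injective
  let A0 := Algebra.adjoin (ZMod p) (Set.range ((↑) : t → k))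
  let g : A0 →ₐ[ZMod p] Ω := (MvPolynomial.aeval y).comp hb.1.aevalEquiv.symm.toAlgHom
  have hg : Function.Injective g := by
    refine Function.Injective.comp (g := MvPolynomial.aeval y) hy hb.1.aevalEquiv.symm.injective
  let : Algebra A0 Ω := g.toRingHom.toAlgebra
  have htf : Module.IsTorsionFree A0 Ω := by
    rw [Module.isTorsionFree_iff_algebraMap_injective]
    exact hg
  have : Algebra.IsAlgebraic A0 k := hb.isAlgebraic
  let φ : k →+* Ω := (IsAlgClosed.lift (R := A0) (S := k) (M := Ω)).toRingHom
  obtain ⟨L, i1, i2, i, ψ, j, hi, -, -⟩ := exists_finite_sub (p := p) (K := K) hk φ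
  exact ⟨L, i1, i2, i, ψ, hi⟩

end

end Pool.Agent.Q26.MTS
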