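import Pool.Agent.Q26.MTS.Comp

/-!
# The motivic t-structure: one field is enough

A system of categories of motives over all fields of characteristic `p` is given, with base
change, direct images for finite extensions, continuity and specialisation (see
`Pool.Agent.Q26.MTS.System`; all these are known for the constructible Voevodsky motives with
rational coefficients). The existence of a motivic t-structure descends to arbitrary subfields,
passes to algebraic extensions, can be tested on the finitely generated subfields, and holds for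
all fields of characteristic `p` as soon as it holds for one field of infinite transcendence
degree, for instance for the complex numbers if `p = 0`.
-/

set_option autoImplicit false

open CategoryTheory Triangulated
open Pool.Agent.Y116.MT (IsMotivic)
open Pool.Agent.Q26.MTS (System Q1 InfiniteTranscendenceDegree)

namespace Pool.Agent.Results.MP_6d0ce9_ag.OneField

universe a s u v w

/-- The motivic t-structure: one field is enough. -/
theorem result {p : ℕ} {Λ : Type a} [Nonempty Λ] {E : Λ → Type w} [∀ l, Field (E l)]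
    [∀ l, CharZero (E l)] (𝓜 : System.{a, s, u, v, w} p Λ E) :
    -- (1) descent to arbitrary subfields
    (∀ (k K : Type s) [Field k] [CharP k p] [Field K] [CharP K p] (_ : k →+* K),
      Q1 (𝓜.M K) → Q1 (𝓜.M k)) ∧
    -- (2) algebraic extensions
    (∀ (k K : Type s) [Field k] [CharP k p] [Field K] [CharP K p] [Algebra k K]
      [Algebra.IsAlgebraic k K], Q1 (𝓜.M k) ↔ Q1 (𝓜.M K)) ∧
    -- (3) finitely generated subfields
    (∀ (K : Type s) [Field K] [CharP K p], Q1 (𝓜.M K) ↔
      ∀ (k : Type s) [Field k] [CharP k p] (_ : k →+* K), Field.FG k → Q1 (𝓜.M k)) ∧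
    -- (4) one field of infinite transcendence degree
    (∀ (K : Type s) [Field K] [CharP K p], InfiniteTranscendenceDegree p K →
      (Q1 (𝓜.M K) ↔ ∀ (k : Type s) [Field k] [CharP k p], Q1 (𝓜.M k))) ∧
    InfiniteTranscendenceDegree 0 ℂ ∧
    -- (5) base change is t-exact and detects the t-structures
    (∀ (k K : Type s) [Field k] [CharP k p] [Field K] [CharP K p] (φ : k →+* K)
      (t : TStructure (𝓜.M k).C) (t' : TStructure (𝓜.M K).C), IsMotivic t (𝓜.M k).R →
      IsMotivic t' (𝓜.M K).R → ∀ (n : ℤ) (X : (𝓜.M k).C),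
        (t'.le n ((𝓜.bc φ).F.obj X) ↔ t.le n X) ∧ (t'.ge n ((𝓜.bc φ).F.obj X) ↔ t.ge n X)) := by
  refine ⟨fun k K _ _ _ _ φ h => 𝓜.down φ h, fun k K _ _ _ _ _ _ =>
    ⟨fun h => 𝓜.alg h, fun h => 𝓜.down (algebraMap k K) h⟩,
    fun K _ _ => ⟨fun h k _ _ φ _ => 𝓜.down φ h, fun h => 𝓜.of_fg h⟩,
    fun K _ _ hK => ⟨fun h k _ _ => 𝓜.one_field hK h k, fun h => h K⟩,
    Pool.Agent.Q26.MTS.complex_infinite,
    fun k K _ _ _ _ φ t t' ht ht' n X => (𝓜.bc φ).compat ht ht' n X⟩

end Pool.Agent.Results.MP_6d0ce9_ag.OneField
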