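import Pool.Agent.Q26.MTS.Trunc

/-!
# Truncation triangles of direct summands, and comparison functors
-/

set_option autoImplicit false
set_option linter.unusedSectionVars false
set_option backward.isDefEq.respectTransparency false
set_option backward.defeqAttrib.useBackward true

open CategoryTheory Limits MonoidalCategory Pretriangulated Triangulated
open Pool.Agent.Y116.MT (TensorTriangulated Realisation IsMotivic TensorCompat TExact hz1 hz2 hz3
  hmono1 hmono2 hepi1 hepi2 rotD comp31)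
open Pool.Agent.Q57.MT (Conservative HasTruncations tOf motivic_tOf orthogonal rle rge)

namespace Pool.Agent.Q26.MTS

universe a s u v w

section

variable {C : Type u} [Category.{v} C] [Preadditive C] [HasZeroObject C] [HasShift C ℤ]
  [∀ n : ℤ, (shiftFunctor C n).Additive] [Pretriangulated C]
  {A : Type*} [Category A] [Abelian A] (H : C ⥤ A) [H.IsHomological]
  {X Y Z : C} {f : X ⟶ Y} {g : Y ⟶ Z} {h : Z ⟶ X⟦(1 : ℤ)⟧}
  (hT : Triangle.mk f g h ∈ distTriang C)

include hT in
lemma hz_cone (n : ℤ) (h1 : Epi (H.map (f⟦n⟧')))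
    (h2 : Mono (H.map (f⟦n + 1⟧')) ∨ IsZero (H.obj (X⟦n + 1⟧))) : IsZero (H.obj (Z⟦n⟧)) := by
  have h3 : Epi (H.map (g⟦n⟧')) := by
    rcases h2 with h2 | h2
    · let _ := Functor.ShiftSequence.tautological H ℤ
      have h4 := (H.homologySequence_mono_shift_map_mor₁_iff _ hT n (n + 1) rfl).1 h2
      exact (H.homologySequence_epi_shift_map_mor₂_iff _ hT n (n + 1) rfl).2 h4
    · exact hepi2 H hT n h2
  have h5 : H.map (g⟦n⟧') = 0 := by
    let _ := Functor.ShiftSequence.tautological H ℤ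
    exact (H.homologySequence_epi_shift_map_mor₁_iff _ hT n).1 h1
  rw [IsZero.iff_id_eq_zero, ← cancel_epi (H.map (g⟦n⟧')), h5, zero_comp, zero_comp]

lemma isZero_of_retract {X Y : C} (hX : IsZero X) (r : Retract Y X) : IsZero Y := by
  rw [IsZero.iff_id_eq_zero, ← r.retract, hX.eq_of_tgt r.i 0, zero_comp]

end

section

variable {Λ : Type a} {E : Λ → Type w} [∀ l, Field (E l)] {S : Motives.{a, u, v, w} Λ E}

lemma dle.retract {n : ℤ} {X Y : S.C} (hX : dle S n X) (r : Retract Y X) : dle S n Y := by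
  intro l i hi
  rw [IsZero.iff_id_eq_zero]
  have h1 : 𝟙 ((S.R l).H.obj (Y⟦i⟧)) = (S.R l).H.map (r.i⟦i⟧') ≫ (S.R l).H.map (r.r⟦i⟧') := by
    rw [← Functor.map_comp, ← Functor.map_comp, r.retract, CategoryTheory.Functor.map_id,
      CategoryTheory.Functor.map_id]
  rw [h1, (hX l i hi).eq_of_tgt ((S.R l).H.map (r.i⟦i⟧')) 0, zero_comp]

lemma dle.shift_one {X : S.C} (hX : dle S 0 X) : dle S 0 (X⟦(1 : ℤ)⟧) := by
  intro l i hi
  exact (hX l (1 + i) (by omega)).of_iso
    ((S.R l).H.mapIso ((shiftFunctorAdd' S.C 1 i (1 + i) rfl).symm.app X))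

/-- Orthogonality. -/
def Orth (S : Motives.{a, u, v, w} Λ E) : Prop :=
  ∀ (A B : S.C) (f : A ⟶ B), dle S 0 A → dge S 1 B → f = 0

/-- Direct summands of objects with truncation triangles have truncation triangles. -/
theorem Tr.retract (ho : Orth S) {X X' : S.C} (hX' : Tr S X') (r : Retract X X') : Tr S X := by
  obtain ⟨A, B, f, g, h, hT, hA, hB⟩ := hX'
  have hee : (r.r ≫ r.i) ≫ r.r ≫ r.i = r.r ≫ r.i := by
    rw [Category.assoc, r.retract_assoc]
  obtain ⟨eA, heA⟩ := Triangle.coyoneda_exact₂ _ hT (f ≫ r.r ≫ r.i) (ho _ _ _ hA hB)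
  change f ≫ r.r ≫ r.i = eA ≫ f at heA
  have huniq : ∀ b : A ⟶ A, b ≫ f = 0 → b = 0 := by
    intro b hb
    have h1 : b⟦(1 : ℤ)⟧' ≫ f⟦(1 : ℤ)⟧' = 0 := by
      rw [← Functor.map_comp, hb, Functor.map_zero]
    obtain ⟨c, hc⟩ := Triangle.coyoneda_exact₁ _ hT (b⟦(1 : ℤ)⟧') h1
    rw [ho _ _ c hA.shift_one hB, zero_comp] at hc
    exact (shiftFunctor S.C (1 : ℤ)).map_injective (by rw [hc, Functor.map_zero])
  have hidem : eA ≫ eA = eA := by
    rw [← sub_eq_zero]
    apply huniq
    rw [Preadditive.sub_comp, Category.assoc, ← heA, ← Category.assoc, ← heA, Category.assoc,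
      hee, sub_self]
  obtain ⟨A₁, iA, rA, h1, h2⟩ := IsIdempotentComplete.idempotents_split A eA hidem
  let ra : Retract A₁ A := ⟨iA, rA, h1⟩
  have hA₁ : dle S 0 A₁ := hA.retract ra
  obtain ⟨Z, g', h', hT'⟩ := distinguished_cocone_triangle (iA ≫ f ≫ r.r)
  refine ⟨A₁, Z, _, g', h', hT', hA₁, ?_⟩
  have c1 : (iA ≫ f ≫ r.r) ≫ r.i = iA ≫ f := by
    rw [Category.assoc, Category.assoc, heA, ← h2, ← Category.assoc, ← Category.assoc, h1,
      Category.id_comp]
  have c2 : rA ≫ iA ≫ f ≫ r.r = f ≫ r.r := by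
    rw [← Category.assoc, h2, ← Category.assoc, ← heA, Category.assoc, Category.assoc, r.retract,
      Category.comp_id]
  have key : ∀ (l : Λ) (i : ℤ), i ≤ 0 → IsIso ((S.R l).H.map ((iA ≫ f ≫ r.r)⟦i⟧')) := by
    intro l i hi
    have e1 : Mono ((S.R l).H.map (f⟦i⟧')) := hmono1 _ hT i (hB l _ (by omega))
    have e2 : Epi ((S.R l).H.map (f⟦i⟧')) := hepi1 _ hT i (hB l _ (by omega))
    have e3 : IsIso ((S.R l).H.map (f⟦i⟧')) := isIso_of_mono_of_epi _
    refine ⟨(S.R l).H.map (r.i⟦i⟧') ≫ inv ((S.R l).H.map (f⟦i⟧')) ≫ (S.R l).H.map (rA⟦i⟧'),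
      ?_, ?_⟩
    · rw [← Category.assoc, ← Functor.map_comp, ← Functor.map_comp, c1, Functor.map_comp,
        Functor.map_comp, Category.assoc, IsIso.hom_inv_id_assoc, ← Functor.map_comp,
        ← Functor.map_comp, h1, CategoryTheory.Functor.map_id, CategoryTheory.Functor.map_id]
    · rw [Category.assoc, Category.assoc, ← Functor.map_comp, ← Functor.map_comp, c2,
        Functor.map_comp, Functor.map_comp, IsIso.inv_hom_id_assoc, ← Functor.map_comp,
        ← Functor.map_comp, r.retract, CategoryTheory.Functor.map_id,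
        CategoryTheory.Functor.map_id]
  intro l i hi
  have hi' := key l i (by omega)
  refine hz_cone _ hT' i inferInstance ?_
  by_cases h0 : i + 1 ≤ 0
  · have := key l (i + 1) h0
    exact Or.inl inferInstance
  · exact Or.inr (hA₁ l _ (by omega))

end

section

variable {Λ : Type a} {E : Λ → Type w} [∀ l, Field (E l)] {S T : Motives.{a, u, v, w} Λ E}
  (c : Comparison S T)

lemma Comparison.dle {n : ℤ} {X : S.C} (h : dle S n X) : dle T n (c.F.obj X) :=
  fun l i hi => (c.zero_iff l X i).2 (h l i hi)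

lemma Comparison.dge {n : ℤ} {X : S.C} (h : dge S n X) : dge T n (c.F.obj X) :=
  fun l i hi => (c.zero_iff l X i).2 (h l i hi)

/-- Comparison functors preserve truncation triangles. -/
lemma Comparison.tr {X : S.C} (h : Tr S X) : Tr T (c.F.obj X) := by
  obtain ⟨A, B, f, g, h, hT, hA, hB⟩ := h
  exact ⟨_, _, _, _, _, c.F.map_distinguished _ hT, c.dle hA, c.dge hB⟩

include c in
/-- Comparison functors reflect orthogonality. -/
lemma Comparison.orth (ho : Orth T) : Orth S := by
  intro A B f hA hB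
  apply c.F.map_injective
  rw [Functor.map_zero]
  exact ho _ _ _ (c.dle hA) (c.dge hB)

lemma Comparison.isZero {X : S.C} (h : IsZero (c.F.obj X)) : IsZero X := by
  rw [IsZero.iff_id_eq_zero]
  apply c.F.map_injective
  rw [Functor.map_zero]
  exact h.eq_of_src _ _

include c in
lemma Comparison.conservative (l : Λ) (hc : Conservative (T.R l)) : Conservative (S.R l) :=
  fun X hX => c.isZero (hc _ fun i => (c.zero_iff l X i).2 (hX i))

variable [∀ l, CharZero (E l)] [Nonempty Λ]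

lemma orth_of_q1 (h : Q1 S) : Orth S := by
  obtain ⟨hc, htr⟩ := q1_iff.1 h
  obtain ⟨l₀⟩ := ‹Nonempty Λ›
  intro A B f hA hB
  exact orthogonal (hc l₀) (fun X => by
    obtain ⟨A, B, f, g, h, hT, hA, hB⟩ := htr X
    exact ⟨A, B, f, g, h, hT, hA l₀, hB l₀⟩) f (hA l₀) (hB l₀)

/-- Motivic t-structures along a finite extension, upwards. -/
theorem q1_up {f : Comparison S T} (t : Transfer f) (h : Q1 S) : Q1 T := by
  have h1 := q1_iff.1 h
  refine q1_iff.2 ⟨fun l => t.G.conservative l (h1.1 l), fun Y => ?_⟩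
  obtain ⟨r⟩ := t.right Y
  exact (f.tr (h1.2 (t.G.F.obj Y))).retract (t.G.orth (orth_of_q1 h)) r

/-- Motivic t-structures descend, if truncation triangles specialise to finite extensions. -/
theorem q1_down (f : Comparison S T) (h : Q1 T)
    (hs : ∀ X : S.C, Tr T (f.F.obj X) → ∃ (U : Motives.{a, u, v, w} Λ E) (g : Comparison S U)
      (_ : Transfer g), Tr U (g.F.obj X)) : Q1 S := by
  have h1 := q1_iff.1 h
  refine q1_iff.2 ⟨fun l => f.conservative l (h1.1 l), fun X => ?_⟩
  obtain ⟨U, g, t, hU⟩ := hs X (h1.2 _)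
  obtain ⟨r⟩ := t.left X
  exact (t.G.tr hU).retract (f.orth (orth_of_q1 h)) r

end

end Pool.Agent.Q26.MTS
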