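import Pool.Agent.Q26.MTS.Fields

/-!
# Motivic t-structures over different fields
-/

set_option autoImplicit false
set_option linter.unusedSectionVars false

open CategoryTheory Limits MonoidalCategory Pretriangulated Triangulated
open Pool.Agent.Q57.MT (Conservative)

namespace Pool.Agent.Q26.MTS

universe a s u v w

section

variable {p : ℕ} {Λ : Type a} {E : Λ → Type w} [∀ l, Field (E l)] [∀ l, CharZero (E l)]
  [Nonempty Λ] (𝓜 : System.{a, s, u, v, w} p Λ E)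

/-- Motivic t-structures descend to arbitrary subfields. -/
theorem System.down {k K : Type s} [Field k] [CharP k p] [Field K] [CharP K p] (φ : k →+* K)
    (h : Q1 (𝓜.M K)) : Q1 (𝓜.M k) := by
  refine q1_down (𝓜.bc φ) h fun X hX => ?_
  obtain ⟨A, B, f, g, h, hT, hA, hB⟩ := hX
  obtain ⟨L, i1, i2, ψ, A', B', f', g', h', hψ, hT', hz⟩ := 𝓜.specialise φ X A B f g h hT
  obtain ⟨t⟩ := 𝓜.transfer ψ hψ
  exact ⟨𝓜.M L, 𝓜.bc ψ, t, A', B', f', g', h', hT', fun l i hi => (hz l i).1.1 (hA l i hi),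
    fun l i hi => (hz l i).2.1 (hB l i hi)⟩

/-- Motivic t-structures for finite extensions. -/
theorem System.up {k K : Type s} [Field k] [CharP k p] [Field K] [CharP K p] (φ : k →+* K)
    (hφ : φ.Finite) (h : Q1 (𝓜.M k)) : Q1 (𝓜.M K) := by
  obtain ⟨t⟩ := 𝓜.transfer φ hφ
  exact q1_up t h

/-- It suffices to consider the finitely generated subfields. -/
theorem System.of_fg {K : Type s} [Field K] [CharP K p]
    (h : ∀ (k : Type s) [Field k] [CharP k p] (_ : k →+* K), Field.FG k → Q1 (𝓜.M k)) :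
    Q1 (𝓜.M K) := by
  refine q1_iff.2 ⟨fun l X hX => ?_, fun X => ?_⟩
  · obtain ⟨k, i1, i2, φ, X₀, hk, ⟨e⟩⟩ := 𝓜.defined X
    have h1 := (q1_iff.1 (h k φ hk)).1 l X₀ fun i => by
      rw [← (𝓜.bc φ).zero_iff l X₀ i]
      exact (hX i).of_iso (((𝓜.M K).R l).H.mapIso ((shiftFunctor (𝓜.M K).C i).mapIso e))
    exact ((𝓜.bc φ).F.map_isZero h1).of_iso e.symm
  · obtain ⟨k, i1, i2, φ, X₀, hk, ⟨e⟩⟩ := 𝓜.defined X
    exact ((𝓜.bc φ).tr ((q1_iff.1 (h k φ hk)).2 X₀)).of_iso e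

/-- Motivic t-structures for algebraic extensions. -/
theorem System.alg {k K : Type s} [Field k] [CharP k p] [Field K] [CharP K p] [Algebra k K]
    [Algebra.IsAlgebraic k K] (h : Q1 (𝓜.M k)) : Q1 (𝓜.M K) := by
  refine 𝓜.of_fg fun k₀ _ _ φ hk₀ => ?_
  obtain ⟨L, i1, i2, i, ψ, j, hi, -, -⟩ := exists_finite_sub (p := p) (K := k) hk₀ φ
  exact 𝓜.down ψ (𝓜.up i hi h)

/-- One field of infinite transcendence degree suffices. -/
theorem System.one_field {K : Type s} [Field K] [CharP K p]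
    (hK : InfiniteTranscendenceDegree p K) (h : Q1 (𝓜.M K)) (k : Type s) [Field k] [CharP k p] :
    Q1 (𝓜.M k) := by
  refine 𝓜.of_fg fun k₀ _ _ _ hk₀ => ?_
  obtain ⟨L, i1, i2, i, ψ, hi⟩ := exists_embedding (p := p) hk₀ hK
  exact 𝓜.down ψ (𝓜.up i hi h)

end

end Pool.Agent.Q26.MTS
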