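import Pool.Agent.Q26.MTS.Defs
import Pool.Agent.Q57.MT.TS

/-!
# Truncation triangles of motives
-/

set_option autoImplicit false
set_option linter.unusedSectionVars false
set_option backward.isDefEq.respectTransparency false
set_option backward.defeqAttrib.useBackward true

open CategoryTheory Limits MonoidalCategory Pretriangulated Triangulated
open Pool.Agent.Y116.MT (TensorTriangulated Realisation IsMotivic TensorCompat TExact hz1 hz2 hz3
  hmono1 hmono2 hepi1 hepi2 rotD comp31)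
open Pool.Agent.Q57.MT (Conservative HasTruncations tOf motivic_tOf orthogonal rle rge)

namespace Pool.Agent.Q26.MTS

universe a s u v w

section

variable {Λ : Type a} {E : Λ → Type w} [∀ l, Field (E l)] (S : Motives.{a, u, v, w} Λ E)

/-- all realisations in degrees `≤ n` -/
def dle (n : ℤ) (X : S.C) : Prop :=
  ∀ (l : Λ) (i : ℤ), n < i → IsZero ((S.R l).H.obj (X⟦i⟧))

/-- all realisations in degrees `≥ n` -/
def dge (n : ℤ) (X : S.C) : Prop :=
  ∀ (l : Λ) (i : ℤ), i < n → IsZero ((S.R l).H.obj (X⟦i⟧))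

/-- `X` has a truncation triangle. -/
def Tr (X : S.C) : Prop :=
  ∃ (A B : S.C) (f : A ⟶ X) (g : X ⟶ B) (h : B ⟶ A⟦(1 : ℤ)⟧),
    Triangle.mk f g h ∈ distTriang S.C ∧ dle S 0 A ∧ dge S 1 B

variable {S}

lemma Tr.of_iso {X Y : S.C} (hX : Tr S X) (e : X ≅ Y) : Tr S Y := by
  obtain ⟨A, B, f, g, h, hT, hA, hB⟩ := hX
  refine ⟨A, B, f ≫ e.hom, e.inv ≫ g, h, ?_, hA, hB⟩
  refine isomorphic_distinguished _ hT _ ?_
  refine Triangle.isoMk _ _ (Iso.refl _) e.symm (Iso.refl _) ?_ ?_ ?_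
  all_goals simp

variable [∀ l, CharZero (E l)] [Nonempty Λ]

/-- The existence of a motivic t-structure in terms of truncation triangles. -/
theorem q1_iff : Q1 S ↔ (∀ l, Conservative (S.R l)) ∧ ∀ X : S.C, Tr S X := by
  constructor
  · rintro ⟨t, ht⟩
    have htc : TensorCompat t := ⟨ht.tensor_le, ht.tensor_ge⟩
    have he : ∀ l, TExact t (S.R l) := fun l => ⟨ht.exact_le l, ht.exact_ge l⟩
    have hu := Pool.Agent.Y116.MT.unit_hrt htc ht.nondeg_le ht.nondeg_ge
    refine ⟨fun l X hX => Pool.Agent.Y116.MT.conservative htc (he l) hu S.unit_idem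
      ht.nondeg_le ht.nondeg_ge hX, fun X => ?_⟩
    obtain ⟨A, B, hA, hB, f, g, h, hT⟩ := t.exists_triangle X 0 1 rfl
    exact ⟨A, B, f, g, h, hT, fun l i hi => (he l).isLE ⟨hA⟩ i hi,
      fun l i hi => (he l).isGE ⟨hB⟩ i hi⟩
  · rintro ⟨hc, htr⟩
    obtain ⟨l₀⟩ := ‹Nonempty Λ›
    have ht0 : HasTruncations (S.R l₀) := fun X => by
      obtain ⟨A, B, f, g, h, hT, hA, hB⟩ := htr X
      exact ⟨A, B, f, g, h, hT, hA l₀, hB l₀⟩
    have hm := motivic_tOf (hc l₀) ht0
    refine ⟨tOf (hc l₀) ht0, hm.nondeg_le, hm.nondeg_ge, hm.tensor_le, hm.tensor_ge, ?_, ?_⟩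
    · intro l X hX i hi
      obtain ⟨A, B, f, g, h, hT, hA, hB⟩ := htr X
      have hB0 : IsZero B := by
        apply hc l₀
        intro j
        by_cases hj : j < 1
        · exact hB l₀ j hj
        · exact hz3 (S.R l₀).H hT j (hX j (by omega)) (hA l₀ (j + 1) (by omega))
      exact hz2 (S.R l).H hT i (hA l i hi)
        (Functor.map_isZero _ (Functor.map_isZero _ hB0))
    · intro l X hX i hi
      obtain ⟨A, B, f, g, h, hT, hA, hB⟩ := htr (X⟦(-1 : ℤ)⟧)
      have hX1 : ∀ j : ℤ, j < 1 → IsZero ((S.R l₀).H.obj (X⟦(-1 : ℤ)⟧⟦j⟧)) := fun j hj =>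
        (hX (-1 + j) (by omega)).of_iso
          ((S.R l₀).H.mapIso ((shiftFunctorAdd' S.C (-1) j (-1 + j) rfl).symm.app X))
      have hA0 : IsZero A := by
        apply hc l₀
        intro j
        by_cases hj : 0 < j
        · exact hA l₀ j hj
        · exact hz1 (S.R l₀).H hT j (hX1 j (by omega)) (hB l₀ (j - 1) (by omega))
      have h1 : IsZero ((S.R l).H.obj (X⟦(-1 : ℤ)⟧⟦i + 1⟧)) :=
        hz2 (S.R l).H hT (i + 1) (Functor.map_isZero _ (Functor.map_isZero _ hA0))
          (hB l (i + 1) (by omega))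
      exact h1.of_iso ((S.R l).H.mapIso ((shiftFunctorAdd' S.C (-1) (i + 1) i (by omega)).app X))

end

end Pool.Agent.Q26.MTS
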